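import Pool.Agent.H950.FK.St

/-!
# A box which meets both clusters is visited by the interface (helper264, for helper950)
-/

set_option autoImplicit false

namespace Pool.Agent.H264.FK

open Pool.Agent.H950.FK H974 H984P

section basic

variable {D : GD} {F : Finset Edg}

theorem mem_W {v : Vtx} : v ∈ D.W ↔ v.1 ≤ D.w v.2 := Iff.rfl

theorem mem_Z {v : Vtx} : v ∈ D.Z ↔ D.z v.2 ≤ v.1 := Iff.rfl

theorem W_clu {v : Vtx} (h : v ∈ D.W) : v ∈ D.clu F := ⟨v, h, Reach.refl _ _⟩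

theorem not_WZ {v : Vtx} (h : v ∈ D.W) : v ∉ D.Z := by
  intro h'
  rw [mem_W] at h
  rw [mem_Z] at h'
  have := D.lt v.2
  omega

theorem cfg_end (hF : F ⊆ D.E) {e : Edg} (he : e ∈ D.cfg F) : src e ∉ D.Z ∧ tgt e ∉ D.Z := by
  rcases he with h | h
  · have h1 := D.mem_E.1 (hF h)
    exact ⟨h1.1, h1.2.1⟩
  · exact ⟨not_WZ h.1, not_WZ h.2⟩

theorem clu_Z (hF : F ⊆ D.E) {u : Vtx} (hu : u ∈ D.clu F) : u ∉ D.Z := by
  obtain ⟨u0, h0, hr⟩ := hu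
  induction hr with
  | refl => exact not_WZ h0
  | tail _ hs _ =>
    obtain ⟨e, he, h⟩ := hs
    have h1 := cfg_end hF he
    rcases h with ⟨_, h2⟩ | ⟨h2, _⟩
    · rw [← h2]
      exact h1.2
    · rw [← h2]
      exact h1.1

theorem cor_edge (e : Edg) : (cor (dsrc e) (src e) ∧ cor (dsrc e) (tgt e)) ∧
    (cor (dtgt e) (src e) ∧ cor (dtgt e) (tgt e)) := by
  obtain ⟨x, y, o⟩ := e
  cases o
  · simp [cor]
  · simp [cor]

theorem dclu_cor {f : Vtx} (hf : f ∈ D.dclu F) : ∃ v, cor f v ∧ v ∉ D.W := by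
  obtain ⟨g, ⟨v, hv, hc⟩, hr⟩ := hf
  induction hr with
  | refl => exact ⟨v, hc, fun h => not_WZ h hv⟩
  | tail _ hs _ =>
    obtain ⟨e, he, h⟩ := hs
    have h1 : e ∉ D.We := fun h' => he (Or.inr h')
    obtain ⟨⟨c1, c2⟩, c3, c4⟩ := cor_edge e
    by_cases h2 : src e ∈ D.W
    · have h3 : tgt e ∉ D.W := fun h' => h1 ⟨h2, h'⟩
      rcases h with ⟨_, h4⟩ | ⟨h4, _⟩
      · rw [← h4]
        exact ⟨_, c4, h3⟩
      · rw [← h4]
        exact ⟨_, c2, h3⟩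
    · rcases h with ⟨_, h4⟩ | ⟨h4, _⟩
      · rw [← h4]
        exact ⟨_, c3, h2⟩
      · rw [← h4]
        exact ⟨_, c1, h2⟩

theorem adj_clu {e : Edg} (he : e ∈ D.cfg F) : src e ∈ D.clu F ↔ tgt e ∈ D.clu F := by
  constructor
  · rintro ⟨u, hu, hr⟩
    exact ⟨u, hu, hr.trans (Adj.reach ⟨e, he, Or.inl ⟨rfl, rfl⟩⟩)⟩
  · rintro ⟨u, hu, hr⟩
    exact ⟨u, hu, hr.trans (Adj.reach ⟨e, he, Or.inr ⟨rfl, rfl⟩⟩)⟩

theorem dadj_clu {e : Edg} (he : e ∉ D.cfg F) : dsrc e ∈ D.dclu F ↔ dtgt e ∈ D.dclu F := by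
  constructor
  · rintro ⟨u, hu, hr⟩
    exact ⟨u, hu, hr.trans (DAdj.reach ⟨e, he, Or.inl ⟨rfl, rfl⟩⟩)⟩
  · rintro ⟨u, hu, hr⟩
    exact ⟨u, hu, hr.trans (DAdj.reach ⟨e, he, Or.inr ⟨rfl, rfl⟩⟩)⟩

/-- a state between the two clusters -/
def Gd (D : GD) (F : Finset Edg) (σ : St) : Prop := σ.1 ∈ D.clu F ∧ face σ ∈ D.dclu F

theorem gd_nxt (σ : St) : Gd D F (nxt (D.cfg F) σ) ↔ Gd D F σ := by
  obtain ⟨⟨x, y⟩, c⟩ := σ
  unfold Gd
  by_cases h : ae ((x, y), c) ∈ D.cfg F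
  · rw [nxt_open h]
    have h1 := adj_clu h
    cases c
    · simp only [ae_ne, src_mk, tgt_true] at h1
      simp only [mv_ne, face_ne, face_nw, add_sub_cancel_right]
      rw [h1]
    · simp only [ae_nw, src_mk, tgt_false] at h1
      simp only [mv_nw, face_nw, face_sw, add_sub_cancel_right]
      rw [h1]
    · simp only [ae_sw, src_mk, tgt_true, sub_add_cancel] at h1
      simp only [mv_sw, face_sw, face_se]
      rw [h1]
    · simp only [ae_se, src_mk, tgt_false, sub_add_cancel] at h1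
      simp only [mv_se, face_ne, face_se]
      rw [h1]
  · rw [nxt_closed h]
    have h1 := dadj_clu h
    cases c
    · simp only [ae_ne, dsrc_true, dtgt_mk] at h1
      simp only [rt_ne, face_ne, face_se]
      rw [h1]
    · simp only [ae_nw, dsrc_false, dtgt_mk] at h1
      simp only [rt_nw, face_ne, face_nw]
      rw [h1]
    · simp only [ae_sw, dsrc_true, dtgt_mk] at h1
      simp only [rt_sw, face_nw, face_sw]
      rw [h1]
    · simp only [ae_se, dsrc_false, dtgt_mk] at h1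
      simp only [rt_se, face_sw, face_se]
      rw [h1]

theorem gd_orb (σ : St) (s : ℕ) : Gd D F (orb (D.cfg F) σ s) ↔ Gd D F σ := by
  induction s with
  | zero => rw [orb_zero]
  | succ s ih => rw [orb_succ, gd_nxt, ih]

theorem gd_start : Gd D F D.start := by
  constructor
  · exact W_clu (mem_W.2 le_rfl)
  · refine ⟨face D.start, ⟨(D.w D.hi + 1, D.hi), ?_, ?_⟩, DReach.refl _ _⟩
    · rw [mem_Z]
      exact ((D.top D.hi le_rfl).2).le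
    · exact ⟨Or.inr rfl, Or.inl rfl⟩

theorem gd_stop : Gd D F D.stop := by
  constructor
  · exact W_clu (mem_W.2 le_rfl)
  · refine ⟨face D.stop, ⟨(D.w D.lo + 1, D.lo), ?_, ?_⟩, DReach.refl _ _⟩
    · rw [mem_Z]
      exact ((D.bot D.lo le_rfl).2).le
    · refine ⟨Or.inr rfl, Or.inr ?_⟩
      show D.lo = D.lo - 1 + 1
      ring

theorem gd_line {σ : St} (h : σ ∈ line D F) : Gd D F σ := by
  obtain ⟨s, t, h⟩ := h
  rw [← gd_orb σ s, h, gd_orb]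
  exact gd_start

theorem clu_top (hF : F ⊆ D.E) {u : Vtx} (hu : u ∈ D.clu F) (h : D.hi ≤ u.2) : u.1 ≤ D.w D.hi := by
  have h1 := clu_Z hF hu
  rw [mem_Z, (D.top u.2 h).2] at h1
  omega

theorem clu_bot (hF : F ⊆ D.E) {u : Vtx} (hu : u ∈ D.clu F) (h : u.2 ≤ D.lo) : u.1 ≤ D.w D.lo := by
  have h1 := clu_Z hF hu
  rw [mem_Z, (D.bot u.2 h).2] at h1
  omega

theorem dclu_top {f : Vtx} (hf : f ∈ D.dclu F) (h : D.hi ≤ f.2) : D.w D.hi ≤ f.1 := by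
  obtain ⟨v, ⟨h1, h2⟩, h3⟩ := dclu_cor hf
  have h4 : D.hi ≤ v.2 := by rcases h2 with h2 | h2 <;> omega
  rw [mem_W, (D.top v.2 h4).1] at h3
  rcases h1 with h1 | h1 <;> omega

theorem dclu_bot {f : Vtx} (hf : f ∈ D.dclu F) (h : f.2 + 1 ≤ D.lo) : D.w D.lo ≤ f.1 := by
  obtain ⟨v, ⟨h1, h2⟩, h3⟩ := dclu_cor hf
  have h4 : v.2 ≤ D.lo := by rcases h2 with h2 | h2 <;> omega
  rw [mem_W, (D.bot v.2 h4).1] at h3
  rcases h1 with h1 | h1 <;> omega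

theorem dclu_of_cor {f v : Vtx} (hv : v ∈ D.Z) (hc : cor f v) : f ∈ D.dclu F :=
  ⟨f, ⟨v, hv, hc⟩, DReach.refl _ _⟩

/-- a vertex in the rows of the domain -/
theorem proj_v (hF : F ⊆ D.E) {x1 x2 y1 y2 : ℤ} (h1 : y1 ≤ D.hi) (h2 : D.lo ≤ y2)
    (h : ∃ u ∈ D.clu F, (x1 ≤ u.1 ∧ u.1 ≤ x2) ∧ (y1 ≤ u.2 ∧ u.2 ≤ y2)) :
    ∃ u ∈ D.clu F, (x1 ≤ u.1 ∧ u.1 ≤ x2) ∧ (max y1 D.lo ≤ u.2 ∧ u.2 ≤ min y2 D.hi) := by
  obtain ⟨u, hu, hx, hy⟩ := h
  have hlh := D.lohi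
  rcases lt_or_ge D.hi u.2 with h3 | h3
  · refine ⟨(u.1, D.hi), W_clu (mem_W.2 ?_), hx, ?_, ?_⟩
    · have h5 := clu_top hF hu h3.le
      exact h5
    · exact max_le h1 hlh.le
    · exact le_min (h3.le.trans hy.2) le_rfl
  rcases lt_or_ge u.2 D.lo with h4 | h4
  · refine ⟨(u.1, D.lo), W_clu (mem_W.2 ?_), hx, ?_, ?_⟩
    · have h5 := clu_bot hF hu h4.le
      exact h5
    · exact max_le (hy.1.trans h4.le) le_rfl
    · exact le_min h2 hlh.le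
  · exact ⟨u, hu, hx, max_le hy.1 h4, le_min hy.2 h3⟩

/-- a face with a corner in the rows of the domain -/
theorem proj_f {x1 x2 y1 y2 : ℤ} (h1 : y1 ≤ D.hi) (h2 : D.lo ≤ y2)
    (h : ∃ f ∈ D.dclu F, (x1 ≤ f.1 ∧ f.1 < x2) ∧ (y1 ≤ f.2 ∧ f.2 < y2)) :
    ∃ f ∈ D.dclu F, ∃ v, cor f v ∧ (x1 ≤ v.1 ∧ v.1 ≤ x2) ∧
      (max y1 D.lo ≤ v.2 ∧ v.2 ≤ min y2 D.hi) := by
  obtain ⟨f, hf, hx, hy⟩ := h
  have hlh := D.lohi
  rcases lt_or_ge D.hi f.2 with h3 | h3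
  · have h5 := dclu_top hf h3.le
    refine ⟨(f.1, D.hi), dclu_of_cor (v := (f.1 + 1, D.hi)) ?_ ⟨Or.inr rfl, Or.inl rfl⟩,
      (f.1, D.hi), ⟨Or.inl rfl, Or.inl rfl⟩, ⟨hx.1, hx.2.le⟩, max_le h1 hlh.le,
      le_min (h3.le.trans hy.2.le) le_rfl⟩
    rw [mem_Z]
    show D.z D.hi ≤ f.1 + 1
    rw [(D.top D.hi le_rfl).2]
    omega
  rcases lt_or_ge (f.2 + 1) D.lo with h4 | h4
  · have h5 := dclu_bot hf h4.le
    refine ⟨(f.1, D.lo), dclu_of_cor (v := (f.1 + 1, D.lo)) ?_ ⟨Or.inr rfl, Or.inl rfl⟩,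
      (f.1, D.lo), ⟨Or.inl rfl, Or.inl rfl⟩, ⟨hx.1, hx.2.le⟩, max_le ?_ le_rfl,
      le_min h2 hlh.le⟩
    · rw [mem_Z]
      show D.z D.lo ≤ f.1 + 1
      rw [(D.bot D.lo le_rfl).2]
      omega
    · show y1 ≤ D.lo
      omega
  rcases lt_or_ge f.2 D.lo with h5 | h5
  · refine ⟨f, hf, (f.1, f.2 + 1), ⟨Or.inl rfl, Or.inr rfl⟩, ⟨hx.1, hx.2.le⟩, ?_, ?_⟩
    · show max y1 D.lo ≤ f.2 + 1
      exact max_le (by omega) h4
    · show f.2 + 1 ≤ min y2 D.hi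
      exact le_min (by omega) (by omega)
  · exact ⟨f, hf, f, ⟨Or.inl rfl, Or.inl rfl⟩, ⟨hx.1, hx.2.le⟩, max_le hy.1 h5,
      le_min hy.2.le h3⟩

theorem state_of_cor {f v : Vtx} (h : cor f v) : ∃ σ : St, σ.1 = v ∧ face σ = f := by
  obtain ⟨a, b⟩ := f
  obtain ⟨x, y⟩ := v
  obtain ⟨h1, h2⟩ := h
  simp only at h1 h2
  rcases h1 with h1 | h1 <;> rcases h2 with h2 | h2
  · exact ⟨((x, y), .ne), rfl, by rw [face_ne, h1, h2]⟩
  · exact ⟨((x, y), .se), rfl, by rw [face_se, h1, h2]; simp⟩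
  · exact ⟨((x, y), .nw), rfl, by rw [face_nw, h1, h2]; simp⟩
  · exact ⟨((x, y), .sw), rfl, by rw [face_sw, h1, h2]; simp⟩

end basic

theorem t_con (h : Pool.Agent.H950.FK.S_pot) (_h2 : Pool.Agent.H950.FK.S_path) :
    Pool.Agent.H950.FK.S_con := by
  intro D F hF x1 x2 y1 y2 hu hf
  have hlh := D.lohi
  rcases lt_or_ge D.hi y1 with hA | hA
  · obtain ⟨u, hu1, hu2, hu3⟩ := hu
    obtain ⟨f, hf1, hf2, hf3⟩ := hf
    have h3 := clu_top hF hu1 (by omega)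
    have h4 := dclu_top hf1 (by omega)
    refine ⟨D.start, ⟨gd_start.1, gd_start.2, hlh.le, le_rfl⟩, ⟨?_, ?_⟩, Or.inr ⟨rfl, hA⟩,
      Or.inl ?_⟩
    · show x1 ≤ D.w D.hi
      omega
    · show D.w D.hi ≤ x2
      omega
    · show D.hi ≤ y2
      omega
  rcases lt_or_ge y2 D.lo with hB | hB
  · obtain ⟨u, hu1, hu2, hu3⟩ := hu
    obtain ⟨f, hf1, hf2, hf3⟩ := hf
    have h3 := clu_bot hF hu1 (by omega)
    have h4 := dclu_bot hf1 (by omega)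
    refine ⟨D.stop, ⟨gd_stop.1, gd_stop.2, le_rfl, hlh.le⟩, ⟨?_, ?_⟩, Or.inl ?_,
      Or.inr ⟨rfl, hB⟩⟩
    · show x1 ≤ D.w D.lo
      omega
    · show D.w D.lo ≤ x2
      omega
    · show y1 ≤ D.lo
      omega
  obtain ⟨u, hu1, hu2, hu3⟩ := proj_v hF hA hB hu
  obtain ⟨f, hf1, v, hv1, hv2, hv3⟩ := proj_f hA hB hf
  by_contra hcon
  push Not at hcon
  obtain ⟨hv, hfc, hp1, hp2, hp3⟩ := h D F hF
  -- no state of the line has its vertex in the box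
  have key : ∀ σ : St, x1 ≤ σ.1.1 → σ.1.1 ≤ x2 → max y1 D.lo ≤ σ.1.2 → σ.1.2 ≤ min y2 D.hi →
      hv σ.1 = hfc (face σ) := by
    intro σ k1 k2 k3 k4
    have k5 : y1 ≤ σ.1.2 ∧ D.lo ≤ σ.1.2 := max_le_iff.1 k3
    have k6 : σ.1.2 ≤ y2 ∧ σ.1.2 ≤ D.hi := le_min_iff.1 k4
    by_contra hne
    have hsum : hv σ.1 + hfc (face σ) = 1 := by
      revert hne
      generalize hv σ.1 = a
      generalize hfc (face σ) = b
      revert a b
      decide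
    have hg := gd_line ((hp1 σ).2 hsum)
    exact absurd (hcon σ ⟨hg.1, hg.2, k5.2, k6.2⟩ ⟨k1, k2⟩ (Or.inl k5.1)).1 (not_lt.2 k6.1)
  have hrow : ∀ y, max y1 D.lo ≤ y → y ≤ min y2 D.hi → ∀ x, x1 ≤ x → x ≤ x2 →
      hv (x, y) = hv (x1, y) := by
    intro y k1 k2 x k3
    induction x, k3 using Int.leInduction with
    | base => exact fun _ => rfl
    | succ x k3 ih =>
      intro k4
      rw [← ih (by omega)]
      have e1 := key ((x, y), .ne) k3 (by show x ≤ x2; omega) k1 k2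
      have e2 := key ((x + 1, y), .nw) (by show x1 ≤ x + 1; omega) k4 k1 k2
      rw [face_ne] at e1
      rw [face_nw, add_sub_cancel_right] at e2
      exact e2.trans e1.symm
  have hx12 : x1 ≤ x2 := hu2.1.trans hu2.2
  have hcol : ∀ y, max y1 D.lo ≤ y → y ≤ min y2 D.hi → hv (x1, y) = hv (x1, max y1 D.lo) := by
    intro y k1
    induction y, k1 using Int.leInduction with
    | base => exact fun _ => rfl
    | succ y k1 ih =>
      intro k2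
      rw [← ih (by omega)]
      have e1 := key ((x1, y), .ne) (le_refl _) hx12 k1 (by show y ≤ _; omega)
      have e2 := key ((x1, y + 1), .se) (le_refl _) hx12 (by show _ ≤ y + 1; omega) k2
      rw [face_ne] at e1
      rw [face_se, add_sub_cancel_right] at e2
      exact e2.trans e1.symm
  have hu4 : hv u = hv (x1, max y1 D.lo) :=
    (hrow u.2 hu3.1 hu3.2 u.1 hu2.1 hu2.2).trans (hcol u.2 hu3.1 hu3.2)
  have hv4 : hv v = hv (x1, max y1 D.lo) :=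
    (hrow v.2 hv3.1 hv3.2 v.1 hv2.1 hv2.2).trans (hcol v.2 hv3.1 hv3.2)
  obtain ⟨σ, hσ1, hσ2⟩ := state_of_cor hv1
  have e3 := key σ (by rw [hσ1]; exact hv2.1) (by rw [hσ1]; exact hv2.2)
    (by rw [hσ1]; exact hv3.1) (by rw [hσ1]; exact hv3.2)
  rw [hσ1, hσ2, hv4, ← hu4, hp2 u hu1, hp3 f hf1] at e3
  exact absurd e3 (by decide)

end Pool.Agent.H264.FK
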